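import Mathlib

namespace Pool.Agent.H.MP_b0cc33_lc

open Classical Primrec

theorem effDC {σ ζ : Type} [Primcodable σ] [Primcodable ζ] (chk : (ℕ × σ) × ζ → Prop)
    (hc : PrimrecPred chk) (nxt : (ℕ × σ) × ζ → σ) (hn : Primrec nxt) (Inv : ℕ → σ → Prop)
    (s0 : σ) (h0 : Inv 0 s0) (h1 : ∀ m s, Inv m s → ∃ z, chk ((m, s), z))
    (h2 : ∀ m s z, Inv m s → chk ((m, s), z) → Inv (m + 1) (nxt ((m, s), z))) :
    ∃ st : ℕ → σ, Computable st ∧ st 0 = s0 ∧ (∀ m, Inv m (st m)) ∧
      ∀ m, ∃ z, chk ((m, st m), z) ∧ st (m + 1) = nxt ((m, st m), z) := by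
  let g : ℕ × σ → ℕ → Option σ := fun a k => (Encodable.decode (α := ζ) k).bind
    fun z => if chk (a, z) then some (nxt (a, z)) else none
  have hg : Primrec₂ g := by
    refine Primrec.option_bind (Primrec.decode.comp snd) ?_
    have e : Primrec fun x : ((ℕ × σ) × ℕ) × ζ => (x.1.1, x.2) := pair (fst.comp fst) snd
    exact Primrec.ite (hc.comp e) (option_some.comp (hn.comp e)) (const none)
  let f : ℕ × σ →. σ := fun a => Nat.rfindOpt (g a)
  have hf : Partrec f := Partrec.rfindOpt hg.to_comp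
  let F : ℕ →. σ := fun m => Nat.rec (Part.some s0) (fun y IH => IH.bind fun i => f (y, i)) m
  have hF : Partrec F := Partrec.nat_rec (f := fun a : ℕ => a) (g := fun _ => Part.some s0)
    (h := fun _ x => f x) Computable.id (Partrec.const' _) (hf.comp Computable.snd).to₂
  have key : ∀ m s, Inv m s → ∃ s' ∈ f (m, s), ∃ z, chk ((m, s), z) ∧ s' = nxt ((m, s), z) := by
    intro m s hs
    obtain ⟨z, hz⟩ := h1 m s hs
    have hd : (f (m, s)).Dom := Nat.rfindOpt_dom.mpr
      ⟨Encodable.encode z, nxt ((m, s), z), by simp [g, hz]⟩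
    refine ⟨_, Part.get_mem hd, ?_⟩
    obtain ⟨k, hk⟩ := Nat.rfindOpt_spec (Part.get_mem hd)
    simp only [g, Option.mem_def, Option.bind_eq_some_iff] at hk
    obtain ⟨z', _, hz'⟩ := hk
    split_ifs at hz' with hh
    exact ⟨z', hh, (Option.some.inj hz').symm⟩
  have tot : ∀ m, ∃ s ∈ F m, Inv m s := by
    intro m
    induction m with
    | zero => exact ⟨s0, Part.mem_some _, h0⟩
    | succ m ih =>
      obtain ⟨s, a1, a2⟩ := ih
      obtain ⟨s', b1, z, b2, b3⟩ := key m s a2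
      exact ⟨s', Part.mem_bind_iff.mpr ⟨s, a1, b1⟩, b3 ▸ h2 m s z a2 b2⟩
  choose st t1 t2 using tot
  refine ⟨st, hF.of_eq_tot t1, Part.mem_some_iff.mp (t1 0), t2, fun m => ?_⟩
  obtain ⟨s', b1, z, b2, b3⟩ := key m (st m) (t2 m)
  exact ⟨z, b2, (Part.mem_unique (t1 (m + 1)) (Part.mem_bind_iff.mpr ⟨_, t1 m, b1⟩)).trans b3⟩

theorem re_approx {α : Type} [Primcodable α] {p : α → Prop} (h : REPred p) :
    ∃ NN : α → ℕ → Prop, PrimrecRel NN ∧ (∀ a t, NN a t → p a) ∧
      ∀ a, p a → ∀ᶠ t in Filter.atTop, NN a t := by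
  obtain ⟨c, hc⟩ := Nat.Partrec.Code.exists_code.mp h
  have key : ∀ a, p a ↔ ∃ x, x ∈ c.eval (Encodable.encode a) := by
    intro a
    rw [hc]
    simp [Part.mem_assert_iff]
  refine ⟨fun a t => (Nat.Partrec.Code.evaln t c (Encodable.encode a)).isSome = true, ?_, ?_, ?_⟩
  · exact Primrec.eq.comp (option_isSome.comp (Nat.Partrec.Code.primrec_evaln.comp
      (pair (pair snd (const c)) (Primrec.encode.comp fst)))) (const true)
  · intro a t ht
    obtain ⟨x, hx⟩ := Option.isSome_iff_exists.mp ht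
    exact (key a).mpr ⟨x, Nat.Partrec.Code.evaln_sound hx⟩
  · intro a ha
    obtain ⟨x, hx⟩ := (key a).mp ha
    obtain ⟨k, hk⟩ := Nat.Partrec.Code.evaln_complete.mp hx
    filter_upwards [Filter.eventually_ge_atTop k] with t ht
    exact Option.isSome_iff_exists.mpr ⟨x, Nat.Partrec.Code.evaln_mono ht hk⟩

theorem fall {α β : Type} [Primcodable α] [Primcodable β] {f : α → List β} {R : α → β → Prop}
    (hf : Primrec f) (hR : PrimrecPred fun p : α × β => R p.1 p.2) :
    PrimrecPred fun a => ∀ b ∈ f a, R a b :=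
  (PrimrecRel.forall_mem_list (R := fun b a => R a b)
    (PrimrecRel.swap (r := R) hR)).comp hf Primrec.id

theorem pmem {α β : Type} [Primcodable α] [Primcodable β] {f : α → List β} {g : α → β}
    (hg : Primrec g) (hf : Primrec f) : PrimrecPred fun a => g a ∈ f a :=
  ((PrimrecRel.exists_mem_list (R := fun (b c : β) => b = c) Primrec.eq).comp hf hg).of_eq
    fun a => by simp

abbrev W (n : ℕ) := List (Fin n × Bool)
abbrev Pc (n : ℕ) := W n × ℕ
abbrev St (n : ℕ) := List (Pc n) × List (Pc n)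
abbrev Ce (n : ℕ) := List (W n) × List (List (Pc n)) × List (Pc n) × ℕ × ℕ

variable {n : ℕ}

def dec (n : ℕ) (i : ℕ) : W n := (Encodable.decode (α := W n) i).getD []
def mul (p a : Pc n) : Pc n := (p.1 ++ a.1, p.2 + a.2)
def ev (T : List (Pc n)) : Pc n := T.foldr mul ([], 0)
def dbl (p : Pc n) : Pc n := (p.1, 2 * p.2)

def newP (x : (ℕ × St n) × Ce n) : List (Pc n) :=
  x.1.2.1.map dbl ++ (x.2.1.map (fun v => (v, 1)) ++ x.2.1.map (fun v => (FreeGroup.invRev v, 1)))

def tup (x : (ℕ × St n) × Ce n) (i : ℕ) : List (Pc n) := x.2.2.1.getD i []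

def newC (x : (ℕ × St n) × Ce n) : List (Pc n) :=
  (List.range (x.1.1 + 1)).map (fun i => (dec n i, (ev (tup x i)).2)) ++ x.1.2.2.map dbl

def Chk (NN : W n → ℕ → Prop) (x : (ℕ × St n) × Ce n) : Prop :=
  (∀ i ∈ List.range (x.1.1 + 1), (∀ p ∈ tup x i, p ∈ newP x) ∧
    FreeGroup.invRev (dec n i) ++ (ev (tup x i)).1 ∈ x.2.1 ∧
    (¬ NN (dec n i) x.1.1 ∨ 0 < (ev (tup x i)).2)) ∧
  ([], 0) ∈ x.2.2.2.1 ∧
  (∀ a ∈ x.2.2.2.1, ∀ p ∈ newP x, ¬ (mul p a).2 < x.2.2.2.2.1 ∨ mul p a ∈ x.2.2.2.1) ∧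
  (∀ c ∈ newC x, c.2 ≤ x.2.2.2.2.1 ∧
    ∀ a ∈ x.2.2.2.1, ¬ a.2 < c.2 ∨ NN (FreeGroup.invRev c.1 ++ a.1) x.2.2.2.2.2)

theorem p_dec : Primrec (dec n) := option_getD.comp Primrec.decode (const [])

theorem p_inv : Primrec (FreeGroup.invRev : W n → W n) :=
  list_reverse.comp (list_map Primrec.id
    (pair (fst.comp snd) (Primrec.not.comp (snd.comp snd))).to₂)

theorem p_mul : Primrec₂ (mul : Pc n → Pc n → Pc n) :=
  pair (list_append.comp (fst.comp fst) (fst.comp snd))
    (nat_add.comp (snd.comp fst) (snd.comp snd))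

theorem p_ev : Primrec (ev : List (Pc n) → Pc n) :=
  list_foldr (h := fun _ y => mul y.1 y.2) Primrec.id (const ([], 0))
    (p_mul.comp (fst.comp snd) (snd.comp snd)).to₂

theorem p_dbl : Primrec (dbl : Pc n → Pc n) := pair fst (nat_double.comp snd)

theorem p_newP : Primrec (newP : (ℕ × St n) × Ce n → List (Pc n)) :=
  list_append.comp (list_map (fst.comp (snd.comp fst)) (p_dbl.comp snd).to₂)
    (list_append.comp (list_map (fst.comp snd) (pair snd (const 1)).to₂)
      (list_map (fst.comp snd) (pair (p_inv.comp snd) (const 1)).to₂))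

theorem p_tup : Primrec₂ (tup : (ℕ × St n) × Ce n → ℕ → List (Pc n)) :=
  (list_getD []).comp (fst.comp (snd.comp (snd.comp fst))) snd

theorem p_rng : Primrec fun x : (ℕ × St n) × Ce n => List.range (x.1.1 + 1) :=
  list_range.comp (succ.comp (fst.comp fst))

theorem p_newC : Primrec (newC : (ℕ × St n) × Ce n → List (Pc n)) :=
  list_append.comp (list_map p_rng
      (pair (p_dec.comp snd) (snd.comp (p_ev.comp p_tup))).to₂)
    (list_map (snd.comp (snd.comp fst)) (p_dbl.comp snd).to₂)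

theorem p_Chk {NN : W n → ℕ → Prop} (h : PrimrecRel NN) : PrimrecPred (Chk NN) := by
  have pS : Primrec fun x : (ℕ × St n) × Ce n => x.2.2.2.1 := fst.comp (snd.comp (snd.comp snd))
  have pB : Primrec fun x : (ℕ × St n) × Ce n => x.2.2.2.2.1 :=
    fst.comp (snd.comp (snd.comp (snd.comp snd)))
  have pt : Primrec fun x : (ℕ × St n) × Ce n => x.2.2.2.2.2 :=
    snd.comp (snd.comp (snd.comp (snd.comp snd)))
  have pe : Primrec fun y : ((ℕ × St n) × Ce n) × ℕ => ev (tup y.1 y.2) := p_ev.comp p_tup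
  refine PrimrecPred.and (fall p_rng (PrimrecPred.and ?_ (PrimrecPred.and ?_
    (PrimrecPred.or (PrimrecPred.not ?_) ?_)))) (PrimrecPred.and (pmem (const _) pS)
      (PrimrecPred.and (fall pS ?_) (fall p_newC (PrimrecPred.and ?_ ?_))))
  · exact fall p_tup (pmem snd (p_newP.comp (fst.comp fst)))
  · exact pmem (list_append.comp (p_inv.comp (p_dec.comp snd)) (fst.comp pe))
      (fst.comp (snd.comp fst))
  · exact h.comp (p_dec.comp snd) (fst.comp (fst.comp fst))
  · exact nat_lt.comp (const 0) (snd.comp pe)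
  · have pm : Primrec fun y : (((ℕ × St n) × Ce n) × Pc n) × Pc n => mul y.2 y.1.2 :=
      p_mul.comp snd (snd.comp fst)
    exact fall (p_newP.comp fst) (PrimrecPred.or
      (PrimrecPred.not (nat_lt.comp (snd.comp pm) (pB.comp (fst.comp fst))))
      (pmem pm (pS.comp (fst.comp fst))))
  · exact nat_le.comp (snd.comp snd) (pB.comp fst)
  · exact fall (pS.comp fst) (PrimrecPred.or
      (PrimrecPred.not (nat_lt.comp (snd.comp snd) (snd.comp (snd.comp fst))))
      (h.comp (list_append.comp (p_inv.comp (fst.comp (snd.comp fst))) (fst.comp snd))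
        (pt.comp (fst.comp fst))))

end Pool.Agent.H.MP_b0cc33_lc
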