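import Pool.Agent.H.MP_b0cc33_lc.Comp

namespace Pool.Agent.H.MP_b0cc33_lc

open Classical
open FreeGroup hiding map_mul map_inv map_one
open Filter hiding mk

variable {n : ℕ}

def Over (P T : List (Pc n)) : Prop := ∀ p ∈ T, p ∈ P

theorem ev_cons (p : Pc n) (T : List (Pc n)) : ev (p :: T) = mul p (ev T) := rfl

theorem ev_append (T T' : List (Pc n)) : ev (T ++ T') = mul (ev T) (ev T') := by
  induction T with
  | nil => simp [ev, mul]
  | cons p T ih => rw [List.cons_append, ev_cons, ih, ev_cons]; simp [mul, add_assoc]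

theorem ev_dbl (T : List (Pc n)) : ev (T.map dbl) = dbl (ev T) := by
  induction T with
  | nil => rfl
  | cons p T ih => rw [List.map_cons, ev_cons, ih, ev_cons]; simp [mul, dbl, mul_add]

theorem ev_inv (T : List (Pc n)) :
    ev ((T.map (fun p => (invRev p.1, p.2))).reverse) = (invRev (ev T).1, (ev T).2) := by
  induction T with
  | nil => rfl
  | cons p T ih =>
    rw [List.map_cons, List.reverse_cons, ev_append, ih, ev_cons, ev_cons]
    simp [mul, ev, add_comm]

structure Inv (N : Subgroup (FreeGroup (Fin n))) (s : St n) : Prop where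
  pos : ∀ p ∈ s.1, 0 < p.2
  sym : ∀ p ∈ s.1, (invRev p.1, p.2) ∈ s.1
  gen : ∀ x : Fin n × Bool, ∃ c, ([x], c) ∈ s.1
  com : ∀ c ∈ s.2, ∀ T, Over s.1 T → (ev T).2 < c.2 → mk (invRev c.1 ++ (ev T).1) ∉ N

theorem Inv.tuple {N : Subgroup (FreeGroup (Fin n))} {s : St n} (h : Inv N s) (w : W n) :
    ∃ T, Over s.1 T ∧ (ev T).1 = w := by
  induction w with
  | nil => exact ⟨[], fun _ h => (List.not_mem_nil h).elim, rfl⟩
  | cons x w ih =>
    obtain ⟨T, a1, a2⟩ := ih
    obtain ⟨c, hc⟩ := h.gen x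
    exact ⟨([x], c) :: T, fun p hp => by
      rcases List.mem_cons.mp hp with rfl | hp
      exacts [hc, a1 p hp], by simp [ev_cons, mul, a2]⟩

theorem mem_iff {N : Subgroup (FreeGroup (Fin n))} [N.Normal] (w u : W n) :
    mk (invRev w ++ u) ∈ N ↔ QuotientGroup.mk' N (mk w) = QuotientGroup.mk' N (mk u) := by
  rw [← mul_mk, ← inv_mk, QuotientGroup.mk'_apply, QuotientGroup.mk'_apply, QuotientGroup.eq]

theorem mem_newP {x : (ℕ × St n) × Ce n} {p : Pc n} : p ∈ newP x ↔
    (∃ p' ∈ x.1.2.1, dbl p' = p) ∨ (∃ v ∈ x.2.1, (v, 1) = p) ∨ ∃ v ∈ x.2.1, (invRev v, 1) = p := by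
  simp only [newP, List.mem_append, List.mem_map]

theorem step_sound {N : Subgroup (FreeGroup (Fin n))} {NN : W n → ℕ → Prop}
    (hN : ∀ w t, NN w t → mk w ∉ N) {x : (ℕ × St n) × Ce n} (h : Inv N x.1.2) (hc : Chk NN x) :
    Inv N (newP x, newC x) := by
  refine ⟨fun p hp => ?_, fun p hp => ?_, fun y => ?_, fun c hc' T hT hlt => ?_⟩
  · rcases mem_newP.mp hp with ⟨p', a, rfl⟩ | ⟨v, _, rfl⟩ | ⟨v, _, rfl⟩
    · have := h.pos p' a
      simp only [dbl]; omega
    · exact Nat.one_pos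
    · exact Nat.one_pos
  · rcases mem_newP.mp hp with ⟨p', a, rfl⟩ | ⟨v, a, rfl⟩ | ⟨v, a, rfl⟩
    · exact mem_newP.mpr (Or.inl ⟨_, h.sym p' a, rfl⟩)
    · exact mem_newP.mpr (Or.inr (Or.inr ⟨v, a, rfl⟩))
    · exact mem_newP.mpr (Or.inr (Or.inl ⟨v, a, by simp⟩))
  · obtain ⟨c, hc⟩ := h.gen y
    exact ⟨2 * c, mem_newP.mpr (Or.inl ⟨_, hc, rfl⟩)⟩
  · obtain ⟨_, h0, h1, h2⟩ := hc
    have key : ∀ T : List (Pc n), Over (newP x) T → (ev T).2 < x.2.2.2.2.1 →
        ev T ∈ x.2.2.2.1 := by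
      intro T hT hl
      induction T with
      | nil => exact h0
      | cons p T ih =>
        have a := ih (fun q hq => hT q (List.mem_cons_of_mem _ hq)) (by
          simp only [ev_cons, mul] at hl; omega)
        exact (h1 _ a p (hT p List.mem_cons_self)).resolve_left (not_not.mpr hl)
    exact hN _ _ (((h2 c hc').2 _ (key T hT (lt_of_lt_of_le hlt (h2 c hc').1))).resolve_left
      (not_not.mpr hlt))

theorem exists_closure (P : List (Pc n)) (hp : ∀ p ∈ P, 0 < p.2) (B : ℕ) :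
    ∃ S : List (Pc n), ∀ a, a ∈ S ↔ ∃ T, Over P T ∧ (ev T).2 ≤ B ∧ ev T = a := by
  have hf : {a | ∃ T, Over P T ∧ (ev T).2 ≤ B ∧ ev T = a}.Finite := by
    have : Finite {p // p ∈ P} := (List.finite_toSet P).to_subtype
    refine ((List.finite_length_le {p // p ∈ P} B).image
      (fun T => ev (T.map Subtype.val))).subset ?_
    rintro a ⟨T, h1, h2, rfl⟩
    refine ⟨T.attachWith _ h1, ?_, by simp only [List.attachWith_map_subtype_val]⟩
    simp only [Set.mem_ofPred_eq, List.length_attachWith]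
    refine le_trans ?_ h2
    clear h2
    induction T with
    | nil => exact Nat.zero_le _
    | cons p T ih =>
      have a1 := ih (fun q hq => h1 q (List.mem_cons_of_mem _ hq))
      have a2 := hp p (h1 p List.mem_cons_self)
      simp only [List.length_cons, ev_cons, mul]
      omega
  exact ⟨hf.toFinset.toList, fun a => by simp⟩

theorem step_exists {N : Subgroup (FreeGroup (Fin n))} [N.Normal] {NN : W n → ℕ → Prop}
    (hN : ∀ w t, NN w t → mk w ∉ N) (hN' : ∀ w, mk w ∉ N → ∀ᶠ t in atTop, NN w t)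
    (m : ℕ) {s : St n} (h : Inv N s) : ∃ z, Chk NN ((m, s), z) := by
  have hex : ∀ i, ∃ T, (Over s.1 T ∧ mk (invRev (dec n i) ++ (ev T).1) ∈ N) ∧
      ∀ T', Over s.1 T' → mk (invRev (dec n i) ++ (ev T').1) ∈ N → (ev T).2 ≤ (ev T').2 := by
    intro i
    have : ∃ c, ∃ T, (Over s.1 T ∧ mk (invRev (dec n i) ++ (ev T).1) ∈ N) ∧ (ev T).2 = c := by
      obtain ⟨T, a1, a2⟩ := h.tuple (dec n i)
      exact ⟨_, T, ⟨a1, by rw [mem_iff, a2]⟩, rfl⟩
    obtain ⟨T, a1, a2⟩ := Nat.find_spec this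
    exact ⟨T, a1, fun T' b1 b2 => a2 ▸ Nat.find_min' this ⟨T', ⟨b1, b2⟩, rfl⟩⟩
  choose T hT hmin using hex
  set V := (List.range (m + 1)).map (fun i => invRev (dec n i) ++ (ev (T i)).1) with hV
  set D := (List.range (m + 1)).map (fun i => (T i).map dbl) with hD
  have hVN : ∀ v ∈ V, QuotientGroup.mk' N (mk v) = 1 := by
    intro v hv
    obtain ⟨i, _, rfl⟩ := List.mem_map.mp hv
    exact (QuotientGroup.eq_one_iff _).mpr (hT i).2
  set x0 : (ℕ × St n) × Ce n := ((m, s), (V, D, [], 0, 0)) with hx0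
  have htup : ∀ i ∈ List.range (m + 1), tup x0 i = (T i).map dbl := by
    intro i hi
    have := List.mem_range.mp hi
    simp [tup, hx0, hD, List.getD, this]
  have red : ∀ T', Over (newP x0) T' → ∃ T0, Over s.1 T0 ∧ 2 * (ev T0).2 ≤ (ev T').2 ∧
      QuotientGroup.mk' N (mk (ev T0).1) = QuotientGroup.mk' N (mk (ev T').1) := by
    intro T' hT'
    induction T' with
    | nil => exact ⟨[], fun _ h => (List.not_mem_nil h).elim, le_rfl, rfl⟩
    | cons p T' ih =>
      obtain ⟨T0, a1, a2, a3⟩ := ih (fun q hq => hT' q (List.mem_cons_of_mem _ hq))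
      rcases mem_newP.mp (hT' p List.mem_cons_self) with ⟨p', a, rfl⟩ | ⟨v, a, rfl⟩ | ⟨v, a, rfl⟩
      · refine ⟨p' :: T0, fun q hq => ?_, ?_, ?_⟩
        · rcases List.mem_cons.mp hq with rfl | hq
          exacts [a, a1 q hq]
        · simp only [ev_cons, mul, dbl]; omega
        · simp only [ev_cons, mul, dbl, ← mul_mk, map_mul, a3]
      · refine ⟨T0, a1, by simp only [ev_cons, mul]; omega, ?_⟩
        simp only [ev_cons, mul, ← mul_mk, map_mul, a3, hVN v a, one_mul]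
      · refine ⟨T0, a1, by simp only [ev_cons, mul]; omega, ?_⟩
        simp only [ev_cons, mul, ← mul_mk, ← inv_mk, map_mul, map_inv, a3, hVN v a, inv_one,
          one_mul]
  have com : ∀ c ∈ newC x0, ∀ T', Over (newP x0) T' → (ev T').2 < c.2 →
      mk (invRev c.1 ++ (ev T').1) ∉ N := by
    intro c hc T' hT' hlt hmem
    obtain ⟨T0, a1, a2, a3⟩ := red T' hT'
    rw [mem_iff, ← a3, ← mem_iff] at hmem
    rcases List.mem_append.mp hc with hc | hc
    · obtain ⟨i, hi, rfl⟩ := List.mem_map.mp hc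
      have := hmin i T0 a1 hmem
      rw [htup i hi, ev_dbl] at hlt
      simp only [dbl] at hlt
      omega
    · obtain ⟨c', hc', rfl⟩ := List.mem_map.mp hc
      simp only [dbl] at hlt hmem
      exact h.com c' hc' T0 a1 (by omega) hmem
  have pos : ∀ p ∈ newP x0, 0 < p.2 := by
    intro p hp
    rcases mem_newP.mp hp with ⟨p', a, rfl⟩ | ⟨v, _, rfl⟩ | ⟨v, _, rfl⟩
    · have := h.pos p' a
      simp only [dbl]; omega
    · exact Nat.one_pos
    · exact Nat.one_pos
  set B := ((newC x0).map Prod.snd).sum with hB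
  obtain ⟨S, hS⟩ := exists_closure (newP x0) pos B
  have ev1 : ∀ᶠ t in atTop, ∀ c ∈ {c | c ∈ newC x0}, ∀ a ∈ {a | a ∈ S},
      ¬ a.2 < c.2 ∨ NN (invRev c.1 ++ a.1) t := by
    rw [eventually_all_finite (List.finite_toSet _)]
    intro c hc
    rw [eventually_all_finite (List.finite_toSet _)]
    intro a ha
    by_cases hlt : a.2 < c.2
    · obtain ⟨T', b1, _, rfl⟩ := (hS a).mp ha
      exact (hN' _ (com c hc T' b1 hlt)).mono fun t ht => Or.inr ht
    · exact Eventually.of_forall fun _ => Or.inl hlt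
  obtain ⟨t, ht⟩ := ev1.exists
  refine ⟨(V, D, S, B, t), fun i hi => ?_, (hS _).mpr ⟨[], fun _ h => (List.not_mem_nil h).elim,
    Nat.zero_le _, rfl⟩, fun a ha p hp => ?_, fun c hc => ⟨?_, ht c hc⟩⟩
  · have e : tup ((m, s), (V, D, S, B, t)) i = (T i).map dbl := htup i hi
    rw [e, ev_dbl]
    refine ⟨fun p hp => ?_, List.mem_map.mpr ⟨i, hi, rfl⟩, ?_⟩
    · obtain ⟨p', a, rfl⟩ := List.mem_map.mp hp
      exact mem_newP.mpr (Or.inl ⟨p', (hT i).1 p' a, rfl⟩)
    · by_contra hc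
      push Not at hc
      have a1 := hN _ _ hc.1
      have a2 := (hT i).2
      have a3 : T i = [] := by
        by_contra hne
        obtain ⟨p, T', e'⟩ := List.exists_cons_of_ne_nil hne
        have := h.pos p ((hT i).1 p (by rw [e']; exact List.mem_cons_self))
        have b := hc.2
        rw [e'] at b
        simp only [ev_cons, mul, dbl] at b
        omega
      rw [a3] at a2
      simp only [ev, List.foldr_nil, List.append_nil, ← inv_mk, inv_mem_iff] at a2
      exact a1 a2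
  · by_cases hlt : (mul p a).2 < B
    · right
      obtain ⟨T', b1, _, rfl⟩ := (hS a).mp ha
      refine (hS _).mpr ⟨p :: T', fun q hq => ?_, hlt.le, rfl⟩
      rcases List.mem_cons.mp hq with rfl | hq
      exacts [hp, b1 q hq]
    · exact Or.inl hlt
  · exact List.single_le_sum (fun _ _ => Nat.zero_le _) _ (List.mem_map.mpr ⟨c, hc, rfl⟩)

theorem exists_length (N : Subgroup (FreeGroup (Fin n))) [N.Normal]
    (hN : REPred (fun w : W n => mk w ∉ N)) :
    ∃ l : FreeGroup (Fin n) → ℝ, l 1 = 0 ∧ (∀ g, l g⁻¹ = l g) ∧ (∀ g h, l (g * h) ≤ l g + l h) ∧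
      (∀ g, l g = 0 ↔ g ∈ N) ∧ ∃ q : ℕ × ℕ → ℕ, Computable q ∧
        ∀ i k, |l (mk (dec n i)) - (q (i, k) : ℝ) / 2 ^ k| ≤ 1 / 2 ^ k := by
  obtain ⟨NN, p1, p2, p3⟩ := re_approx hN
  obtain ⟨st, c1, _, c3, c4⟩ := effDC (Chk NN) (p_Chk p1) (fun x => (newP x, newC x))
    (Primrec.pair p_newP p_newC) (fun _ s => Inv N s)
    (((Finset.univ : Finset (Fin n × Bool)).toList.map fun x => ([x], 1)), [])
    ⟨fun p hp => by
        obtain ⟨x, _, rfl⟩ := List.mem_map.mp hp
        exact Nat.one_pos,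
      fun p hp => by
        obtain ⟨x, _, rfl⟩ := List.mem_map.mp hp
        exact List.mem_map.mpr ⟨(x.1, !x.2), by simp, rfl⟩,
      fun x => ⟨1, List.mem_map.mpr ⟨x, by simp, rfl⟩⟩, by simp⟩
    (fun m s hs => step_exists p2 p3 m hs) (fun m s z h1 h2 => step_sound p2 h1 h2)
  choose z hz1 hz2 using c4
  set R : ℕ → FreeGroup (Fin n) → ℕ → Prop := fun m g c =>
    ∃ T, Over (st m).1 T ∧ mk (ev T).1 = g ∧ (ev T).2 = c with hR
  have lift : ∀ m g c d, R m g c → R (m + d) g (2 ^ d * c) := by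
    intro m g c d h
    induction d with
    | zero => simpa using h
    | succ d ih =>
      obtain ⟨T, a1, a2, a3⟩ := ih
      refine ⟨T.map dbl, fun p hp => ?_, by rw [ev_dbl]; exact a2, by
        rw [ev_dbl]; simp only [dbl, a3]; ring⟩
      obtain ⟨p', b, rfl⟩ := List.mem_map.mp hp
      rw [← add_assoc, hz2]
      exact mem_newP.mpr (Or.inl ⟨p', a1 p' b, rfl⟩)
  have liftC : ∀ m w L d, (w, L) ∈ (st m).2 → (w, 2 ^ d * L) ∈ (st (m + d)).2 := by
    intro m w L d h
    induction d with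
    | zero => simpa using h
    | succ d ih =>
      rw [← add_assoc, hz2]
      exact List.mem_append_right _ (List.mem_map.mpr ⟨_, ih, by simp only [dbl]; congr 1; ring⟩)
  set A : FreeGroup (Fin n) → Set ℝ := fun g => {r | ∃ m c, R m g c ∧ r = c / 2 ^ m} with hA
  have Ane : ∀ g, (A g).Nonempty := by
    intro g
    obtain ⟨T, a1, a2⟩ := (c3 0).tuple g.toWord
    exact ⟨_, 0, _, ⟨T, a1, by rw [a2, mk_toWord], rfl⟩, rfl⟩
  have A0 : ∀ g, ∀ r ∈ A g, 0 ≤ r := by
    rintro g r ⟨m, c, _, rfl⟩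
    positivity
  have Ab : ∀ g, BddBelow (A g) := fun g => ⟨0, A0 g⟩
  have l0 : ∀ g, 0 ≤ sInf (A g) := fun g => le_csInf (Ane g) (A0 g)
  have up : ∀ m g c, R m g c → sInf (A g) ≤ c / 2 ^ m := fun m g c h =>
    csInf_le (Ab g) ⟨m, c, h, rfl⟩
  have lo : ∀ m w L, (w, L) ∈ (st m).2 → (L : ℝ) / 2 ^ m ≤ sInf (A (mk w)) := by
    intro m w L h
    refine le_csInf (Ane _) ?_
    rintro r ⟨m', c, h', rfl⟩
    obtain ⟨T, a1, a2, a3⟩ := lift m' _ c m h'
    have b := liftC m w L m' h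
    rw [add_comm m' m] at a1
    have : ¬ (ev T).2 < 2 ^ m' * L := fun hlt =>
      (c3 _).com _ b T a1 hlt (by rw [mem_iff, a2])
    rw [a3, not_lt] at this
    rw [div_le_div_iff₀ (by positivity) (by positivity)]
    have : ((2 ^ m' * L : ℕ) : ℝ) ≤ (2 ^ m * c : ℕ) := by exact_mod_cast this
    push_cast at this
    linarith
  have Ainv : ∀ g, A g ⊆ A g⁻¹ := by
    rintro g r ⟨m, c, ⟨T, a1, a2, a3⟩, rfl⟩
    refine ⟨m, c, ⟨(T.map (fun p => (invRev p.1, p.2))).reverse, fun p hp => ?_,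
      by rw [ev_inv, ← inv_mk, a2], by rw [ev_inv, a3]⟩, rfl⟩
    obtain ⟨p', b, rfl⟩ := List.mem_map.mp (List.mem_reverse.mp hp)
    exact (c3 m).sym p' (a1 p' b)
  set L : ℕ → ℕ → ℕ := fun m i => (ev (tup ((m, st m), z m) i)).2 with hL
  have hL1 : ∀ m i, i ≤ m → (dec n i, L m i) ∈ (st (m + 1)).2 := by
    intro m i hi
    rw [hz2]
    exact List.mem_append_left _ (List.mem_map.mpr ⟨i, List.mem_range.mpr (Nat.lt_succ_of_le hi), rfl⟩)
  have hL2 : ∀ m i, i ≤ m → R (m + 1) (mk (dec n i)) (L m i + 1) := by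
    intro m i hi
    obtain ⟨a1, a2, _⟩ := (hz1 m).1 i (List.mem_range.mpr (Nat.lt_succ_of_le hi))
    refine ⟨tup ((m, st m), z m) i ++
      [(invRev (invRev (dec n i) ++ (ev (tup ((m, st m), z m) i)).1), 1)], fun p hp => ?_, ?_, ?_⟩
    · rw [hz2]
      rcases List.mem_append.mp hp with hp | hp
      · exact a1 p hp
      · rw [List.mem_singleton.mp hp]
        exact mem_newP.mpr (Or.inr (Or.inr ⟨_, a2, rfl⟩))
    · simp only [ev_append, ev_cons, mul]
      simp [ev, ← mul_mk, ← inv_mk]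
    · simp only [ev_append, ev_cons, mul]
      simp [ev, hL]
  have hL3 : ∀ m i, i ≤ m → ((st (m + 1)).2.getD i ([], 0)).2 = L m i := by
    intro m i hi
    rw [hz2]
    simp only [newC]
    rw [List.getD_append _ _ _ _ (by simp; omega)]
    simp [List.getD, show i < m + 1 by omega, hL]
  have hdec : ∀ g : FreeGroup (Fin n), ∃ i, mk (dec n i) = g := fun g =>
    ⟨Encodable.encode g.toWord, by simp [dec, mk_toWord]⟩
  have hz : ∀ g, sInf (A g) = 0 ↔ g ∈ N := by
    intro g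
    obtain ⟨i, rfl⟩ := hdec g
    constructor
    · intro h0
      by_contra hc
      obtain ⟨m, a1, a2⟩ := ((p3 _ hc).and (eventually_ge_atTop i)).exists
      have b1 := ((hz1 m).1 i (List.mem_range.mpr (Nat.lt_succ_of_le a2))).2.2.resolve_left
        (not_not.mpr a1)
      have b2 := lo _ _ _ (hL1 m i a2)
      have b3 : (0 : ℝ) < L m i := by exact_mod_cast b1
      have : (0 : ℝ) < L m i / 2 ^ (m + 1) := by positivity
      linarith
    · intro hg
      refine le_antisymm (le_of_forall_pos_le_add fun ε hε => ?_) (l0 _)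
      obtain ⟨k, hk⟩ := exists_pow_lt_of_lt_one hε (show (1 / 2 : ℝ) < 1 by norm_num)
      have a0 : L (i + k) i = 0 := by
        by_contra hc
        apply (c3 _).com _ (hL1 (i + k) i (by omega)) [] (fun _ h => (List.not_mem_nil h).elim)
          (Nat.pos_of_ne_zero hc)
        simpa [ev, ← inv_mk] using hg
      have a1 := up _ _ _ (hL2 (i + k) i (by omega))
      rw [a0] at a1
      have a2 : (1 / 2 : ℝ) ^ (i + k + 1) ≤ (1 / 2) ^ k :=
        pow_le_pow_of_le_one (by norm_num) (by norm_num) (by omega)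
      simp only [zero_add, Nat.cast_one, one_div, inv_pow] at a1 a2 hk ⊢
      linarith
  refine ⟨fun g => sInf (A g), (hz 1).mpr N.one_mem, fun g => ?_, fun g h => ?_, hz,
    fun y => ((st (y.1 + y.2 + 1)).2.getD y.1 ([], 0)).2 / 2 ^ (y.1 + 1), ?_, fun i k => ?_⟩
  · have : A g⁻¹ = A g := Set.Subset.antisymm (by simpa using Ainv g⁻¹) (Ainv g)
    simp only [this]
  · have : ∀ r ∈ A g, ∀ r' ∈ A h, sInf (A (g * h)) ≤ r + r' := by
      rintro r ⟨m, c, a, rfl⟩ r' ⟨m', c', a', rfl⟩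
      obtain ⟨T, b1, b2, b3⟩ := lift m g c m' a
      obtain ⟨T', d1, d2, d3⟩ := lift m' h c' m a'
      rw [add_comm m' m] at d1
      refine (up (m + m') _ (2 ^ m' * c + 2 ^ m * c') ⟨T ++ T', fun p hp => ?_, ?_, ?_⟩).trans
        (le_of_eq ?_)
      · rcases List.mem_append.mp hp with hp | hp
        exacts [b1 p hp, d1 p hp]
      · simp only [ev_append, mul, ← mul_mk, b2, d2]
      · simp only [ev_append, mul, b3, d3]
      · push_cast
        field_simp
        ring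
    simp only
    rw [← sub_le_iff_le_add]
    refine le_csInf (Ane g) fun r hr => ?_
    rw [sub_le_comm]
    exact le_csInf (Ane h) fun r' hr' => by linarith [this r hr r' hr']
  · have pw : Primrec₂ ((· ^ ·) : ℕ → ℕ → ℕ) := Primrec₂.unpaired'.1 Nat.Primrec.pow
    exact Primrec.nat_div.to_comp.comp
      (Computable.snd.comp ((Primrec.list_getD ([], 0)).to_comp.comp
        (Computable.snd.comp (c1.comp (Primrec.succ.comp
          (Primrec.nat_add.comp Primrec.fst Primrec.snd)).to_comp)) Computable.fst))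
      (pw.comp (Primrec.const 2) (Primrec.succ.comp Primrec.fst)).to_comp
  · simp only
    rw [hL3 _ _ (by omega)]
    have a1 := lo _ _ _ (hL1 (i + k) i (by omega))
    have a2 := up _ _ _ (hL2 (i + k) i (by omega))
    set M := L (i + k) i
    have b1 : 2 ^ (i + 1) * (M / 2 ^ (i + 1)) ≤ M := Nat.mul_div_le _ _
    have b2 : M + 1 ≤ 2 ^ (i + 1) * (M / 2 ^ (i + 1) + 1) :=
      Nat.lt_mul_div_succ M (by positivity)
    set q := M / 2 ^ (i + 1)
    have b3 : (q : ℝ) / 2 ^ k ≤ M / 2 ^ (i + k + 1) := by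
      rw [div_le_div_iff₀ (by positivity) (by positivity)]
      have : ((2 ^ (i + 1) * q : ℕ) : ℝ) ≤ M := by exact_mod_cast b1
      push_cast at this
      calc (q : ℝ) * 2 ^ (i + k + 1) = 2 ^ (i + 1) * q * 2 ^ k := by ring
        _ ≤ _ := by gcongr
    have b4 : ((M + 1 : ℕ) : ℝ) / 2 ^ (i + k + 1) ≤ (q + 1) / 2 ^ k := by
      rw [div_le_div_iff₀ (by positivity) (by positivity)]
      have : ((M + 1 : ℕ) : ℝ) ≤ (2 ^ (i + 1) * (q + 1) : ℕ) := by exact_mod_cast b2
      calc ((M + 1 : ℕ) : ℝ) * 2 ^ k ≤ ((2 ^ (i + 1) * (q + 1) : ℕ) : ℝ) * 2 ^ k := by gcongr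
        _ = _ := by push_cast; ring
    rw [add_div] at b4
    have : (0 : ℝ) < 1 / 2 ^ k := by positivity
    rw [abs_le]
    constructor <;> linarith

def Sp (n : ℕ) : Type := FreeGroup (Fin n)

end Pool.Agent.H.MP_b0cc33_lc
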